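import Pool.Agent.Helper35.SHQ.Sheet

/-!
# SHQ, row LZ: the start
-/

set_option autoImplicit false

namespace SHQ
open scoped ENNReal

theorem lz_val (b : Fin 3) (T : Tr) :
    (T = .nil ∧ ValC ⟨0, 0, 0⟩ b T 1 = 1) ∨ ValC ⟨0, 0, 0⟩ b T 1 = 0 := by
  cases T with
  | nil => exact Or.inl ⟨rfl, rfl⟩
  | one a T =>
    right
    show w ⟨0, 0, 0⟩ b a * ValC ⟨0, 0, 0⟩ a T 1 = 0
    have : w ⟨0, 0, 0⟩ b a = 0 := by
      unfold w
      split_ifs <;> rfl
    rw [this, zero_mul]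
  | two c T T' =>
    right
    show (0 : ℝ≥0∞) * (ValC ⟨0, 0, 0⟩ (c + 1) T 1 + ValC ⟨0, 0, 0⟩ (c + 2) T' 1) = 0
    rw [zero_mul]

theorem st_LZ (h : ST_GR) : ST_LZ := by
  intro z hz
  obtain ⟨-, -, -, -, -, -, -, h⟩ := h z
  have h2 : z / 2 + z / 2 = z := ENNReal.add_halves z
  have h3 : z / 2 ≤ z := by
    calc z / 2 ≤ z / 2 + z / 2 := le_self_add
      _ = z := h2
  refine ⟨z / 2, ?_, ?_⟩
  · intro h0
    rw [h0, add_zero] at h2
    exact hz h2.symm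
  intro T
  cases T with
  | nil =>
    show z / 2 * 0 ≤ _
    rw [mul_zero]
    exact zero_le
  | one a T =>
    show z / 2 * ValC ⟨0, 0, 0⟩ a T 1 ≤ _
    rcases lz_val a T with ⟨h4, h5⟩ | h5
    · rw [h5, mul_one, h4]
      exact h3.trans (h a .nil).1
    · rw [h5, mul_zero]
      exact zero_le
  | two c T T' =>
    show z / 2 * (ValC ⟨0, 0, 0⟩ (c + 1) T 1 + ValC ⟨0, 0, 0⟩ (c + 2) T' 1) ≤ _
    rcases lz_val (c + 1) T with ⟨h4, h5⟩ | h5
    · rcases lz_val (c + 2) T' with ⟨h6, h7⟩ | h7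
      · rw [h5, h7, mul_add, mul_one, h2, h4]
        exact (h c T').2.1
      · rw [h5, h7, add_zero, mul_one, h4]
        exact h3.trans (h c T').2.1
    · rcases lz_val (c + 2) T' with ⟨h6, h7⟩ | h7
      · rw [h5, h7, zero_add, mul_one, h6]
        exact h3.trans (h c T).2.2
      · rw [h5, h7, add_zero, mul_zero]
        exact zero_le

end SHQ
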